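import Pool.Agent.KS6_4.CL.Code2
import Pool.Agent.KS6_4.CL.Bun

/-!
# Stable sets of expansive homeomorphisms with the shadowing property
-/

set_option autoImplicit false

open Filter Set Metric Topology

universe u v

namespace Pool.Agent.KS6_4.HC

open Pool.Agent.KS6_4.CL Pool.Agent.KS6_4.CL.Code

variable {B : Type v} [MetricSpace B]

theorem Near_mono {h : B → B} {ε ε' : ℝ} {b b' : B}
    (hb : Near h ε b b') (hε : ε ≤ ε') : Near h ε' b b' := fun n => (hb n).trans hε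

theorem Near_symm {h : B → B} {ε : ℝ} {b b' : B} (hb : Near h ε b b') : Near h ε b' b := fun n => by
  rw [dist_comm]; exact hb n

theorem zpow_symm (h : B ≃ₜ B) (k : ℤ) (x : B) : (h.symm ^ k) x = (h ^ (-k)) x := by
  have : h.symm = h⁻¹ := rfl
  rw [this, inv_zpow, zpow_neg]

theorem exp_symm {h : B ≃ₜ B} (hE : Expansive h) : Expansive h.symm := by
  obtain ⟨e, he, h1⟩ := hE
  refine ⟨e, he, fun x y hxy => h1 x y fun k => ?_⟩
  have := hxy (-k)
  rwa [zpow_symm, zpow_symm, neg_neg] at this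

theorem shadow_symm [CompactSpace B] {h : B ≃ₜ B} (hS : Shadowing h) : Shadowing h.symm := by
  intro ε hε
  obtain ⟨δ, hδ, hsh⟩ := hS ε hε
  obtain ⟨δ', hδ', hu⟩ := Metric.uniformContinuous_iff.1
    (CompactSpace.uniformContinuous_of_continuous h.continuous) δ hδ
  refine ⟨δ', hδ', fun ψ hψ => ?_⟩
  obtain ⟨x, hx⟩ := hsh (fun i => ψ (-i)) (fun i => by
    have h1 := hu (hψ (-i - 1))
    rw [h.apply_symm_apply] at h1
    rw [dist_comm, show -(i + 1) = -i - 1 by ring]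
    simpa using h1)
  refine ⟨x, fun i => ?_⟩
  have := hx (-i)
  rw [neg_neg] at this
  rwa [zpow_symm]

/-- uniform contraction of the local stable sets -/
theorem unif_contr [CompactSpace B] {h : B ≃ₜ B} {e : ℝ}
    (he : ∀ x y : B, (∀ k : ℤ, dist ((h ^ k) x) ((h ^ k) y) ≤ e) → x = y) {η : ℝ} (hη : 0 < η) :
    ∃ n₀ : ℕ, ∀ n, n₀ ≤ n → ∀ b b' : B, Near h e b b' → dist (h^[n] b) (h^[n] b') < η := by
  obtain ⟨I, hI⟩ := exp_unif he hη
  refine ⟨I, fun n hn b b' hb => hI _ _ fun i hi => ?_⟩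
  rw [abs_le] at hi
  obtain ⟨j, hj⟩ : ∃ j : ℕ, i + n = j := ⟨(i + n).toNat, by omega⟩
  rw [← it_nat, ← it_nat, ← it_add, ← it_add, hj, it_nat, it_nat]
  exact hb j

/-- the points of the stable set of size less than `ε` -/
def Ps (h : B → B) (ε : ℝ) (b : B) : Set B := {b' | ∃ ε' : ℝ, ε' < ε ∧ Near h ε' b b'}

theorem Ps_near {h : B → B} {ε : ℝ} {b b' : B} (hb : b' ∈ Ps h ε b) : Near h ε b b' := by
  obtain ⟨ε', h1, h2⟩ := hb
  exact Near_mono h2 h1.le

theorem cont_upto' {h : B → B} (hg : Continuous h) (y₀ : B) (S : ℕ) {ε : ℝ} (hε : 0 < ε) :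
    ∃ δ : ℝ, 0 < δ ∧ ∀ y, dist y y₀ < δ → ∀ i ≤ S, dist (h^[i] y) (h^[i] y₀) < ε := by
  induction S with
  | zero =>
    refine ⟨ε, hε, fun y hy i hi => ?_⟩
    obtain rfl : i = 0 := by omega
    exact hy
  | succ S ih =>
    obtain ⟨δ, hδ, h1⟩ := ih
    obtain ⟨δ', hδ', h2⟩ := Metric.continuousAt_iff.1 ((hg.iterate (S + 1)).continuousAt (x := y₀))
      ε hε
    refine ⟨min δ δ', lt_min hδ hδ', fun y hy i hi => ?_⟩
    rcases Nat.lt_or_ge i (S + 1) with h3 | h3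
    · exact h1 y (hy.trans_le (min_le_left _ _)) i (by omega)
    · obtain rfl : i = S + 1 := by omega
      exact h2 (hy.trans_le (min_le_right _ _))

/-- lower semicontinuity of the stable sets -/
theorem stab_lsc [CompactSpace B] {h : B ≃ₜ B} {e : ℝ}
    (he : ∀ x y : B, (∀ k : ℤ, dist ((h ^ k) x) ((h ^ k) y) ≤ e) → x = y) (hS : Shadowing h)
    {ε : ℝ} (hε : ε ≤ e) {b₀ b₁ : B} (hb : b₁ ∈ Ps h ε b₀) {ζ : ℝ} (hζ : 0 < ζ) :
    ∃ δ : ℝ, 0 < δ ∧ ∀ b, dist b b₀ < δ → ∃ b' ∈ Ps h ε b, dist b' b₁ < ζ := by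
  obtain ⟨ε', hε', hn⟩ := hb
  obtain ⟨ζ', hζ', z1, z2⟩ : ∃ ζ' : ℝ, 0 < ζ' ∧ ζ' ≤ ζ ∧ ε' + 2 * ζ' < ε := by
    refine ⟨min ζ ((ε - ε') / 4), lt_min hζ (by linarith), min_le_left _ _, ?_⟩
    have := min_le_right ζ ((ε - ε') / 4)
    linarith
  obtain ⟨δ', hδ', hsh⟩ := hS ζ' hζ'
  obtain ⟨J₀, hJ₀⟩ := unif_contr he (half_pos hδ')
  set J := J₀ + 1 with hJ
  obtain ⟨δ, hδ, hc⟩ := cont_upto' h.continuous b₀ J (lt_min (half_pos hδ') hζ')
  refine ⟨δ, hδ, fun b hbb => ?_⟩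
  have hcb := hc b hbb
  let ψ : ℤ → B := fun i => if i < J then (h ^ i) b₁ else (h ^ i) b
  obtain ⟨b', hb'⟩ := hsh ψ (by
    intro i
    rcases lt_trichotomy (i + 1) J with h1 | h1 | h1
    · simp only [ψ]
      rw [if_pos (by omega), if_pos h1, it_succ, dist_self]
      exact hδ'
    · simp only [ψ]
      rw [if_pos (by omega), if_neg (by omega), it_succ, h1]
      have h2 := hJ₀ J (by omega) b₀ b₁ (Near_mono hn (hε'.le.trans hε))
      have h3 := (hcb J le_rfl).trans_le (min_le_left _ _)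
      rw [it_nat, it_nat]
      have := dist_triangle (h^[J] b₁) (h^[J] b₀) (h^[J] b)
      rw [dist_comm (h^[J] b₁) (h^[J] b₀), dist_comm (h^[J] b₀) (h^[J] b)] at this
      linarith
    · simp only [ψ]
      rw [if_neg (by omega), if_neg (by omega), it_succ, dist_self]
      exact hδ')
  refine ⟨b', ⟨ε' + 2 * ζ', z2, fun n => ?_⟩, ?_⟩
  · have h4 := hb' n
    rw [it_nat] at h4
    have h5 : 0 ≤ ε' := dist_nonneg.trans (hn 0)
    rcases Nat.lt_or_ge n J with h1 | h1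
    · simp only [ψ] at h4
      rw [if_pos (by exact_mod_cast h1), it_nat] at h4
      have h2 := (hcb n h1.le).trans_le (min_le_right _ _)
      have h3 := hn n
      have t1 := dist_triangle (h^[n] b) (h^[n] b₀) (h^[n] b')
      have t2 := dist_triangle (h^[n] b₀) (h^[n] b₁) (h^[n] b')
      rw [dist_comm (h^[n] b₁) (h^[n] b')] at t2
      linarith
    · simp only [ψ] at h4
      rw [if_neg (by push Not; exact_mod_cast h1), it_nat, dist_comm] at h4
      linarith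
  · have h4 := hb' 0
    simp only [ψ] at h4
    rw [if_pos (by omega), it_zero, it_zero] at h4
    linarith

/-- homoclinic points of the orbit of `a` near `b` -/
theorem hom_near [CompactSpace B] {h : B ≃ₜ B} (hS : Shadowing h) (hC : ChainTrans h) (a b : B)
    {ε η : ℝ} (hε : 0 < ε) (hη : 0 < η) : ∃ (c : B) (n₁ n₂ : ℕ), dist c b < η ∧
      h^[n₁] c ∈ Ps h ε a ∧ h.symm^[n₂] c ∈ Ps h.symm ε a := by
  obtain ⟨δ, hδ, hsh⟩ := hS (min (ε / 2) η) (lt_min (half_pos hε) hη)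
  obtain ⟨m₁, w₁, hm₁, hw₁0, hw₁m, hw₁⟩ := hC δ hδ a b
  obtain ⟨m₂, w₂, hm₂, hw₂0, hw₂m, hw₂⟩ := hC δ hδ b a
  let ψ : ℤ → B := fun i => if i < -m₁ then (h ^ (i + m₁)) a else
    if i < 0 then w₁ (i + m₁).toNat else if i < m₂ then w₂ i.toNat else (h ^ (i - m₂)) a
  have hψ0 : ψ 0 = b := by
    simp only [ψ]
    rw [if_neg (by omega), if_neg (by omega), if_pos (by omega)]
    exact hw₂0
  have hψn : ∀ i : ℤ, i ≤ -m₁ → ψ i = (h ^ (i + m₁)) a := by
    intro i hi
    rcases lt_or_eq_of_le hi with h1 | h1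
    · simp only [ψ]
      rw [if_pos h1]
    · simp only [ψ]
      rw [if_neg (by omega), if_pos (by omega), h1]
      simp only [neg_add_cancel, Int.toNat_zero]
      rw [hw₁0, it_zero]
  have hψp : ∀ i : ℤ, m₂ ≤ i → ψ i = (h ^ (i - m₂)) a := by
    intro i hi
    simp only [ψ]
    rw [if_neg (by omega), if_neg (by omega), if_neg (by omega)]
  have hψm : ∀ i : ℕ, i ≤ m₁ → ψ (i - m₁) = w₁ i := by
    intro i hi
    rcases lt_or_eq_of_le hi with h1 | h1
    · simp only [ψ]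
      rw [if_neg (by omega), if_pos (by omega)]
      congr 1
      omega
    · rw [h1, sub_self, hψ0, hw₁m]
  have hψm' : ∀ i : ℕ, i ≤ m₂ → ψ i = w₂ i := by
    intro i hi
    rcases lt_or_eq_of_le hi with h1 | h1
    · simp only [ψ]
      rw [if_neg (by omega), if_neg (by omega), if_pos (by omega)]
      congr 1
    · rw [h1, hψp _ le_rfl, sub_self, it_zero, hw₂m]
  obtain ⟨c, hc⟩ := hsh ψ (by
    intro i
    rcases lt_or_ge i (-m₁) with h1 | h1
    · rw [hψn i h1.le, hψn (i + 1) (by omega), it_succ, show i + (m₁ : ℤ) + 1 = i + 1 + m₁ by ring,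
        dist_self]
      exact hδ
    · rcases lt_or_ge i 0 with h2 | h2
      · obtain ⟨j, hj⟩ : ∃ j : ℕ, i = j - m₁ := ⟨(i + m₁).toNat, by omega⟩
        have h3 := hw₁ j (by omega)
        rw [hj, hψm j (by omega), show (j : ℤ) - m₁ + 1 = (j + 1 : ℕ) - m₁ by push_cast; ring,
          hψm (j + 1) (by omega)]
        exact h3
      · rcases lt_or_ge i m₂ with h3 | h3
        · obtain ⟨j, hj⟩ : ∃ j : ℕ, i = j := ⟨i.toNat, by omega⟩
          have h4 := hw₂ j (by omega)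
          rw [hj, hψm' j (by omega), show (j : ℤ) + 1 = (j + 1 : ℕ) by push_cast; ring,
            hψm' (j + 1) (by omega)]
          exact h4
        · rw [hψp i h3, hψp (i + 1) (by omega), it_succ,
            show i - (m₂ : ℤ) + 1 = i + 1 - m₂ by ring, dist_self]
          exact hδ)
  refine ⟨c, m₂, m₁, ?_, ⟨ε / 2, half_lt_self hε, fun n => ?_⟩,
    ⟨ε / 2, half_lt_self hε, fun n => ?_⟩⟩
  · have := hc 0
    rw [it_zero, hψ0] at this
    exact this.trans_le (min_le_right _ _)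
  · have h1 := hc (n + m₂)
    rw [hψp _ (by omega), show (n : ℤ) + m₂ - m₂ = n by ring, it_nat, it_add, it_nat, it_nat,
      dist_comm] at h1
    exact (h1.trans_le (min_le_left _ _)).le
  · have h1 := hc (-n - m₁)
    rw [hψn _ (by omega), show -(n : ℤ) - m₁ + m₁ = -n by ring,
      show -(n : ℤ) - m₁ = -n + -m₁ by ring, it_add, it_neg_nat, it_neg_nat, it_neg_nat,
      dist_comm] at h1
    exact (h1.trans_le (min_le_left _ _)).le

end Pool.Agent.KS6_4.HC
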