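import Pool.Agent.KS6_4.HC.Fib
import Pool.Graph.R_pool_sql_team_seeded_63374d34.N813.EM.DefsF

/-!
# Strong homoclinic points and fibred systems: the points

`V d = ℝ^d`, `DiffM n N r = Diff^r(N)` and `strongTop n N r` is its strong (Whitney) `C^r` topology
(`Pool/Agent/H718R2/G0.lean`), `GoodChart n N χ z`: `χ` is a chart of the smooth structure of `N` with
`χ z = 0`, the target of which contains the closed unit ball (`Pool/Agent/W564/SC/Defs.lean`), `ExpAct`,
`Inv`, `Quot`: `Pool/Agent/N813/CL/DefsF.lean`, `HolUp`, `HolLow`: `Pool/Agent/N813/EM/DefsF.lean`,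
`ChartLip n N`: the distance of `N` is compatible with the smooth structure, every good chart is
bi-Lipschitz on the ball `‖χ ·‖ ≤ 1/2` (`Pool/Agent/Y368/CL/Met.lean`).
-/

set_option autoImplicit false

open scoped Manifold ContDiff Topology
open Filter Set Metric

universe u v

namespace Pool.Agent.KS6_4.HC

open Pool.Agent.H718R2.G Pool.Agent.W564.SC Pool.Agent.N813.CL.F Pool.Agent.Y368.CL
  Pool.Agent.N813.EM

/-- `x` is a strong homoclinic point, or a point of a fibred system with a transitive proper part. -/
def HPt {X : Type u} [MetricSpace X] (g : X ≃ₜ X) (x : X) : Prop :=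
  StrongHom g x ∨ FibPt.{u, v} g x

/-- `z` lies in a closed invariant set `K` of `F` on which `F` is a compact connected group extension
of a homeomorphism `g` of `X = π(K)` with `HPt g (π z)`; the metric of `X` is Hölder comparable with the
smooth structure of `N` near `z`. -/
def GHPt (k n : ℕ) (N : Type u) [TopologicalSpace N] [ChartedSpace (V n) N] (F : N → N)
    (z : N) : Prop :=
  ∃ (R : V k → N → N) (K : Set N) (X : Type v) (_ : MetricSpace X) (_ : CompactSpace X)
    (g : X ≃ₜ X) (π : N → X) (χ : OpenPartialHomeomorph N (V n)), ExpAct k n N R ∧ Inv F R K ∧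
      Quot R K π ∧ (∀ y ∈ K, π (F y) = g (π y)) ∧ z ∈ K ∧ GoodChart n N χ z ∧ HolUp χ K π ∧
      HolLow χ R K π ∧ HPt.{v, v} g (π z)

/-- `HPt F z` (the distance of `N` being compatible with the smooth structure), or `GHPt k n N F z` for
some `k`. -/
def FHPt (n : ℕ) (N : Type u) [MetricSpace N] [ChartedSpace (V n) N] (F : N ≃ₜ N) (z : N) : Prop :=
  (ChartLip n N ∧ HPt.{u, v} F z) ∨ ∃ k, GHPt.{u, v} k n N F z

/-- Arbitrarily `C^r`-close to `F` there are diffeomorphisms `F'` (for example `F' = F`) for which `z`
is a limit of points `y` with `FHPt n N F' y` (for example such a point). -/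
def HLim (n : ℕ) (N : Type u) [MetricSpace N] [ChartedSpace (V n) N] (r : ℕ∞) (F : DiffM n N r)
    (z : N) : Prop :=
  Approx n N r F fun F' => z ∈ closure {y | FHPt.{u, v} n N F'.toHomeomorph y}

end Pool.Agent.KS6_4.HC
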