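import Pool.Agent.KS6_4.HC.Hom
import Pool.Agent.KS6_4.HC.Base

/-!
# Closing in fibred systems one proper part of which is transitive: the metric part
-/

set_option autoImplicit false

open Filter Set Metric Topology

universe u v

namespace Pool.Agent.KS6_4.HC

open Pool.Agent.KS6_4.CL Pool.Agent.KS6_4.CL.Code

/-- Continuous stable holonomies between the fibres `π⁻¹(b) ∩ Λ` of `π : Λ → B`, for `F` on `Λ` and `h`
on `B`: for `b` in the local stable set of `π x`, `H x b` is a point of the fibre over `b`; these maps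
are compatible with the dynamics and continuous. (Unstable holonomies are the stable holonomies of the
inverses.) -/
structure CHol {N : Type u} {B : Type v} [MetricSpace N] [MetricSpace B] (F : N → N) (h : B → B)
    (Λ : Set N) (π : N → B) (ε : ℝ) (H : N → B → N) : Prop where
  fib : ∀ x ∈ Λ, ∀ b, Near h ε (π x) b → H x b ∈ Λ ∧ π (H x b) = b
  refl : ∀ x ∈ Λ, H x (π x) = x
  symm : ∀ x ∈ Λ, ∀ b, Near h ε (π x) b → H (H x b) (π x) = x
  equiv : ∀ x ∈ Λ, ∀ b, Near h ε (π x) b → F (H x b) = H (F x) (h b)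
  cont : ContinuousOn (fun a : N × B => H a.1 a.2) {a | a.1 ∈ Λ ∧ Near h ε (π a.1) a.2}

/-- `Λ` is a closed invariant set of `F`, fibred by `π` over the transitive expansive homeomorphism `h`
with the shadowing property, with continuous stable and unstable holonomies between the fibres. -/
structure Fibred {N : Type u} {B : Type v} [MetricSpace N] [MetricSpace B] (F : N ≃ₜ N)
    (h : B ≃ₜ B) (Λ : Set N) (π : N → B) : Prop where
  closed : IsClosed Λ
  inv : ∀ x, x ∈ Λ ↔ F x ∈ Λ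
  cont : ContinuousOn π Λ
  onto : ∀ b, ∃ x ∈ Λ, π x = b
  semi : ∀ x ∈ Λ, π (F x) = h (π x)
  trans : TopTrans h
  exp : Expansive h
  shadow : Shadowing h
  stable : ∃ (ε : ℝ) (H : N → B → N), 0 < ε ∧ CHol F h Λ π ε H
  unstable : ∃ (ε : ℝ) (H : N → B → N), 0 < ε ∧ CHol F.symm h.symm Λ π ε H

/-- The restriction of `g` to the invariant set `K` is topologically transitive. -/
def TransOn {X : Type u} [TopologicalSpace X] (g : X → X) (K : Set X) : Prop :=
  ∀ U V : Set X, IsOpen U → IsOpen V → (U ∩ K).Nonempty → (V ∩ K).Nonempty →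
    ∃ n : ℕ, ∃ x ∈ U ∩ K, g^[n] x ∈ V

theorem leads_of_trans {X : Type u} [MetricSpace X] {g : X ≃ₜ X} {K : Set X}
    (hK : ∀ x, x ∈ K ↔ g x ∈ K) (hT : TransOn g K) {x y : X} (hx : x ∈ K) (hy : y ∈ K) :
    Leads g K x y := by
  intro ε hε M
  have hKs : ∀ x ∈ K, g.symm x ∈ K := fun x hx => by rw [hK, g.apply_symm_apply]; exact hx
  obtain ⟨n, u, ⟨hu1, hu2⟩, hu3⟩ := hT (ball x ε) (g^[M] ⁻¹' ball y ε) isOpen_ball
    (isOpen_ball.preimage (g.continuous.iterate M)) ⟨x, mem_ball_self hε, hx⟩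
    ⟨g.symm^[M] y, by
      show g^[M] (g.symm^[M] y) ∈ ball y ε
      rw [symm_right]; exact mem_ball_self hε, mem_iter hKs hy M⟩
  refine ⟨M + n, by omega, u, hu2, mem_ball.1 hu1, ?_⟩
  rw [Function.iterate_add_apply]
  exact mem_ball.1 hu3

section
variable {N : Type u} {B : Type v} [MetricSpace N] [MetricSpace B]

theorem closed_near [CompactSpace N] {h : B → B} (hh : Continuous h) {Λ : Set N} {π : N → B}
    (hΛ : IsClosed Λ) (hπ : ContinuousOn π Λ) (ε : ℝ) :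
    IsClosed {a : N × B | a.1 ∈ Λ ∧ Near h ε (π a.1) a.2} := by
  have h0 : IsClosed {a : N × B | a.1 ∈ Λ} := hΛ.preimage continuous_fst
  have h1 : ∀ n : ℕ, IsClosed {a : N × B | a.1 ∈ Λ ∧ dist (h^[n] (π a.1)) (h^[n] a.2) ≤ ε} := by
    intro n
    have h2 : ContinuousOn (fun a : N × B => dist (h^[n] (π a.1)) (h^[n] a.2))
        {a : N × B | a.1 ∈ Λ} := by
      refine continuous_dist.comp_continuousOn (ContinuousOn.prodMk ?_ ?_)
      · exact (hh.iterate n).comp_continuousOn (hπ.comp continuousOn_fst fun a ha => ha)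
      · exact ((hh.iterate n).comp continuous_snd).continuousOn
    exact h2.preimage_isClosed_of_isClosed h0 isClosed_Iic
  have h2 : {a : N × B | a.1 ∈ Λ ∧ Near h ε (π a.1) a.2} =
      ⋂ n : ℕ, {a : N × B | a.1 ∈ Λ ∧ dist (h^[n] (π a.1)) (h^[n] a.2) ≤ ε} := by
    ext a
    simp only [mem_ofPred_eq, mem_iInter, Near]
    exact ⟨fun h n => ⟨h.1, h.2 n⟩, fun h => ⟨(h 0).1, fun n => (h n).2⟩⟩
  rw [h2]
  exact isClosed_iInter h1

theorem iter_hol {F : N → N} {h : B → B} {Λ : Set N} {π : N → B} {ε : ℝ} {H : N → B → N}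
    (hinv : ∀ x ∈ Λ, F x ∈ Λ) (hsemi : ∀ x ∈ Λ, π (F x) = h (π x))
    (hH : CHol F h Λ π ε H) (n : ℕ) : ∀ x ∈ Λ, ∀ b, Near h ε (π x) b →
    F^[n] (H x b) = H (F^[n] x) (h^[n] b) := by
  induction n with
  | zero => intro x _ b _; rfl
  | succ n ih =>
    intro x hx b hb
    rw [Function.iterate_succ_apply, Function.iterate_succ_apply, Function.iterate_succ_apply,
      hH.equiv x hx b hb]
    apply ih _ (hinv x hx)
    rw [hsemi x hx]
    intro m
    rw [← Function.iterate_succ_apply, ← Function.iterate_succ_apply]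
    exact hb (m + 1)

omit [MetricSpace N] [MetricSpace B] in
theorem iter_pi' {F : N → N} {h : B → B} {Λ : Set N} {π : N → B}
    (hinv : ∀ x ∈ Λ, F x ∈ Λ) (hsemi : ∀ x ∈ Λ, π (F x) = h (π x)) {x : N}
    (hx : x ∈ Λ) (n : ℕ) : π (F^[n] x) = h^[n] (π x) := by
  induction n with
  | zero => rfl
  | succ n ih =>
    rw [Function.iterate_succ_apply', hsemi _ (mem_iter hinv hx n), ih,
      Function.iterate_succ_apply']

/-- the stable plaques -/
def Wp (h : B → B) (π : N → B) (ε : ℝ) (H : N → B → N) (x : N) : Set N :=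
  {y | ∃ b ∈ Ps h ε (π x), y = H x b}

theorem plaques [CompactSpace N] [CompactSpace B] {F : N ≃ₜ N} {h : B ≃ₜ B} {Λ : Set N}
    {π : N → B} {ε : ℝ} {H : N → B → N} (hΛ : IsClosed Λ) (hπ : ContinuousOn π Λ)
    (hinv : ∀ x ∈ Λ, F x ∈ Λ) (hsemi : ∀ x ∈ Λ, π (F x) = h (π x))
    (hH : CHol F h Λ π ε H) {e : ℝ}
    (he : ∀ x y : B, (∀ k : ℤ, dist ((h ^ k) x) ((h ^ k) y) ≤ e) → x = y) (hS : Shadowing h)
    {ε' : ℝ} (h1 : ε' ≤ ε) (h2 : ε' ≤ e) : Plaques F Λ (Wp h π ε' H) := by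
  set S := {a : N × B | a.1 ∈ Λ ∧ Near h ε (π a.1) a.2} with hS'
  have hSc : IsClosed S := closed_near h.continuous hΛ hπ ε
  refine ⟨fun η hη => ?_, ?_⟩
  · -- contraction
    obtain ⟨δ, hδ, hδ2⟩ : ∃ δ : ℝ, 0 < δ ∧ ∀ a ∈ S, dist a.2 (π a.1) < δ →
        dist (H a.1 a.2) a.1 < η := by
      set T := S ∩ {a : N × B | η ≤ dist (H a.1 a.2) a.1} with hT
      have hTc : IsCompact T := by
        apply IsClosed.isCompact
        have hf : ContinuousOn (fun a : N × B => dist (H a.1 a.2) a.1) S :=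
          continuous_dist.comp_continuousOn (hH.cont.prodMk continuous_fst.continuousOn)
        exact hf.preimage_isClosed_of_isClosed hSc isClosed_Ici
      rcases T.eq_empty_or_nonempty with h0 | h0
      · refine ⟨1, one_pos, fun a ha _ => ?_⟩
        by_contra hcon
        rw [not_lt] at hcon
        have : a ∈ T := ⟨ha, hcon⟩
        rw [h0] at this
        exact this
      · have hf : ContinuousOn (fun a : N × B => dist a.2 (π a.1)) T :=
          continuous_dist.comp_continuousOn (continuous_snd.continuousOn.prodMk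
            (hπ.comp continuousOn_fst fun a ha => ha.1.1))
        obtain ⟨a, ha, hmin⟩ := hTc.exists_isMinOn h0 hf
        refine ⟨dist a.2 (π a.1), ?_, fun a' ha' hd => ?_⟩
        · rw [dist_pos]
          intro heq
          have h3 : η ≤ dist (H a.1 a.2) a.1 := ha.2
          rw [heq, hH.refl a.1 ha.1.1, dist_self] at h3
          linarith
        · by_contra hcon
          rw [not_lt] at hcon
          have h3 : dist a.2 (π a.1) ≤ dist a'.2 (π a'.1) := hmin (show a' ∈ T from ⟨ha', hcon⟩)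
          linarith
    obtain ⟨n₀, hn₀⟩ := unif_contr he hδ
    refine ⟨n₀, fun n hn x hx y hy => ?_⟩
    obtain ⟨b, hb, rfl⟩ := hy
    have hb1 : Near h ε (π x) b := Near_mono (Ps_near hb) h1
    rw [iter_hol hinv hsemi hH n x hx b hb1]
    refine hδ2 (F^[n] x, h^[n] b) ⟨mem_iter hinv hx n, ?_⟩ ?_
    · show Near h ε (π (F^[n] x)) (h^[n] b)
      rw [iter_pi' hinv hsemi hx]
      intro m
      rw [← Function.iterate_add_apply, ← Function.iterate_add_apply]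
      exact hb1 (m + n)
    · show dist (h^[n] b) (π (F^[n] x)) < δ
      rw [iter_pi' hinv hsemi hx, dist_comm]
      exact hn₀ n hn _ _ (Near_mono (Ps_near hb) h2)
  · -- lower semicontinuity
    intro x₀ hx₀ y₀ hy₀ η hη
    obtain ⟨b₁, hb₁, rfl⟩ := hy₀
    have c1 := hH.cont (x₀, b₁) ⟨hx₀, Near_mono (Ps_near hb₁) h1⟩
    have c2 := (Metric.tendsto_nhds.1 c1) η hη
    rw [eventually_nhdsWithin_iff] at c2
    obtain ⟨r, hr, hr'⟩ := Metric.mem_nhds_iff.1 c2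
    obtain ⟨δ, hδ, hl⟩ := stab_lsc he hS h2 hb₁ hr
    have c3 := (Metric.tendsto_nhds.1 (hπ x₀ hx₀)) δ hδ
    rw [eventually_nhdsWithin_iff] at c3
    obtain ⟨r', hr2, hr2'⟩ := Metric.mem_nhds_iff.1 c3
    refine ⟨min r r', lt_min hr hr2, fun x hx hxx => ?_⟩
    obtain ⟨b', hb', hb'2⟩ := hl (π x) (hr2' (mem_ball.2 (hxx.trans_le (min_le_right _ _))) hx)
    refine ⟨H x b', ⟨b', hb', rfl⟩, ?_⟩
    refine hr' (show (x, b') ∈ ball (x₀, b₁) r by
      rw [mem_ball, Prod.dist_eq]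
      exact max_lt (hxx.trans_le (min_le_left _ _)) hb'2) ⟨hx, ?_⟩
    exact Near_mono (Ps_near hb') h1

theorem Plaques.mono {X : Type u} [MetricSpace X] {g : X → X} {D D' : Set X} {W : X → Set X}
    (h : Plaques g D W) (hD : D' ⊆ D) : Plaques g D' W :=
  ⟨fun ε hε => by
    obtain ⟨n₀, hn₀⟩ := h.contr ε hε
    exact ⟨n₀, fun n hn x hx => hn₀ n hn x (hD hx)⟩,
   fun x₀ hx₀ y₀ hy₀ ε hε => by
    obtain ⟨δ, hδ, h1⟩ := h.lsc x₀ (hD hx₀) y₀ hy₀ ε hε
    exact ⟨δ, hδ, fun x hx => h1 x (hD hx)⟩⟩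

variable {F : N ≃ₜ N} {h : B ≃ₜ B} {Λ : Set N} {π : N → B}

theorem Fibred.compactSpace [CompactSpace N] (hB : Fibred F h Λ π) : CompactSpace B := by
  refine ⟨?_⟩
  have h1 : (univ : Set B) = π '' Λ := by
    ext b
    simp only [mem_univ, true_iff]
    obtain ⟨x, hx, hxb⟩ := hB.onto b
    exact ⟨x, hx, hxb⟩
  rw [h1]
  exact hB.closed.isCompact.image_of_continuousOn hB.cont

theorem Fibred.inv_symm (hB : Fibred F h Λ π) : ∀ x ∈ Λ, F.symm x ∈ Λ := fun x hx => by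
  rw [hB.inv, F.apply_symm_apply]; exact hx

theorem Fibred.semi_symm (hB : Fibred F h Λ π) : ∀ x ∈ Λ, π (F.symm x) = h.symm (π x) := by
  intro x hx
  apply h.injective
  rw [← hB.semi _ (hB.inv_symm x hx), F.apply_symm_apply, h.apply_symm_apply]

/-- points of nearby fibres -/
theorem near_fibre' (hB : Fibred F h Λ π) {z : N} (hz : z ∈ Λ) {η : ℝ} (hη : 0 < η) :
    ∃ δ : ℝ, 0 < δ ∧ ∀ b : B, dist b (π z) < δ → ∃ x ∈ Λ, π x = b ∧ dist x z < η := by
  obtain ⟨εs, Hs, hεs, hs⟩ := hB.stable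
  obtain ⟨εu, Hu, hεu, hu⟩ := hB.unstable
  have c1 := hs.cont (z, π z) ⟨hz, fun n => by rw [dist_self]; exact hεs.le⟩
  have h1 := (Metric.tendsto_nhds.1 c1) η hη
  rw [eventually_nhdsWithin_iff] at h1
  obtain ⟨r1, hr1, hr1'⟩ := Metric.mem_nhds_iff.1 h1
  have c2 := hu.cont (z, π z) ⟨hz, fun n => by rw [dist_self]; exact hεu.le⟩
  have h2 := (Metric.tendsto_nhds.1 c2) r1 hr1
  rw [eventually_nhdsWithin_iff] at h2
  obtain ⟨r2, hr2, hr2'⟩ := Metric.mem_nhds_iff.1 h2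
  obtain ⟨δ, hδ, hbr⟩ := bracket hB.shadow (lt_min (lt_min hεs hεu) hr2)
  refine ⟨min δ r1, lt_min hδ hr1, fun b hb => ?_⟩
  obtain ⟨c, hc1, hc2, hc3⟩ := hbr (π z) b (by rw [dist_comm]; exact hb.trans_le (min_le_left _ _))
  have hcu : Near h.symm εu (π z) c :=
    Near_mono hc1 ((min_le_left _ _).trans (min_le_right _ _))
  have hcs : Near h εs c b := Near_mono hc2 ((min_le_left _ _).trans (min_le_left _ _))
  have hfu := hu.fib z hz c hcu
  have hfs := hs.fib (Hu z c) hfu.1 b (by rw [hfu.2]; exact hcs)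
  refine ⟨Hs (Hu z c) b, hfs.1, hfs.2, ?_⟩
  have e1 : dist (Hu z c) z < r1 := by
    have : dist (Hu z c) (Hu z (π z)) < r1 := hr2' (show (z, c) ∈ ball (z, π z) r2 by
      rw [mem_ball, Prod.dist_eq, dist_self]
      exact max_lt hr2 (hc3.trans_le (min_le_right _ _))) ⟨hz, hcu⟩
    rwa [hu.refl z hz] at this
  have e2 : dist (Hs (Hu z c) b) (Hs z (π z)) < η := hr1' (show (Hu z c, b) ∈ ball (z, π z) r1 by
      rw [mem_ball, Prod.dist_eq]
      exact max_lt e1 (hb.trans_le (min_le_right _ _))) ⟨hfu.1, by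
        show Near h εs (π (Hu z c)) b
        rw [hfu.2]; exact hcs⟩
  rwa [hs.refl z hz] at e2

/-- `x` lies in a closed invariant set `Λ` fibred over a transitive expansive homeomorphism `h` of `B`
with the shadowing property, with continuous holonomies, and the part of `Λ` over some closed invariant
set `B' ≠ ∅, B` is transitive. -/
def FibPt {X : Type u} [MetricSpace X] (g : X ≃ₜ X) (x : X) : Prop :=
  ∃ (B : Type v) (_ : MetricSpace B) (h : B ≃ₜ B) (Λ : Set X) (π : X → B) (B' : Set B),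
    Fibred g h Λ π ∧ IsClosed B' ∧ B'.Nonempty ∧ B' ≠ univ ∧ (∀ b, b ∈ B' ↔ h b ∈ B') ∧
      TransOn g {y | y ∈ Λ ∧ π y ∈ B'} ∧ x ∈ Λ

/-- strong homoclinic points are dense -/
theorem hom_dense [CompactSpace N] (hB : Fibred F h Λ π) {B' : Set B} (hc : IsClosed B')
    (hne : B'.Nonempty) (huniv : B' ≠ univ) (hinv : ∀ b, b ∈ B' ↔ h b ∈ B')
    (hT : TransOn F {y | y ∈ Λ ∧ π y ∈ B'}) {z : N} (hz : z ∈ Λ) {κ : ℝ} (hκ : 0 < κ) :
    ∃ x, dist x z < κ ∧ StrongHom F x := by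
  have : CompactSpace B := hB.compactSpace
  obtain ⟨δ, hδ, hnear⟩ := near_fibre' hB hz hκ
  obtain ⟨a, ha⟩ := hne
  obtain ⟨b₀, hb₀⟩ := (ne_univ_iff_exists_notMem _).1 huniv
  -- a point outside of `B'` near `π z`
  have hinvn : ∀ (n : ℕ) (b : B), b ∈ B' ↔ h^[n] b ∈ B' := by
    intro n b
    induction n with
    | zero => rfl
    | succ n ih => rw [Function.iterate_succ_apply', ← hinv, ih]
  obtain ⟨u, hu1, hu2⟩ : ∃ u, dist u (π z) < δ ∧ u ∉ B' := by
    obtain ⟨n, u, hu, hun⟩ := hB.trans (ball (π z) δ) B'ᶜ isOpen_ball hc.isOpen_compl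
      ⟨π z, mem_ball_self hδ⟩ ⟨b₀, hb₀⟩
    exact ⟨u, mem_ball.1 hu, fun hcon => hun ((hinvn n u).1 hcon)⟩
  obtain ⟨r, hr, hr'⟩ := Metric.isOpen_iff.1 hc.isOpen_compl u hu2
  obtain ⟨e, he0, he⟩ := hB.exp
  obtain ⟨eu, heu0, heu⟩ := exp_symm hB.exp
  obtain ⟨εs, Hs, hεs, hs⟩ := hB.stable
  obtain ⟨εu, Hu, hεu, hu⟩ := hB.unstable
  obtain ⟨ε, hε, i1, i2, i3, i4⟩ : ∃ ε : ℝ, 0 < ε ∧ ε ≤ εs ∧ ε ≤ e ∧ ε ≤ εu ∧ ε ≤ eu :=
    ⟨min (min εs e) (min εu eu), by positivity,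
      (min_le_left _ _).trans (min_le_left _ _), (min_le_left _ _).trans (min_le_right _ _),
      (min_le_right _ _).trans (min_le_left _ _), (min_le_right _ _).trans (min_le_right _ _)⟩
  obtain ⟨c, n₁, n₂, hcu, hcs, hcu'⟩ := hom_near hB.shadow (chain_of_trans hB.trans) a u hε
    (show 0 < min r (δ - dist u (π z)) from lt_min hr (by linarith))
  have hcB : c ∉ B' := hr' (mem_ball.2 (hcu.trans_le (min_le_left _ _)))
  obtain ⟨x, hx, hxπ, hxz⟩ := hnear c (by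
    have h1 := hcu.trans_le (min_le_right _ _)
    have := dist_triangle c u (π z)
    linarith)
  have hinvF : ∀ x ∈ Λ, F x ∈ Λ := fun x hx => (hB.inv x).1 hx
  refine ⟨x, hxz, ?_⟩
  have hP : Plaques F Λ (Wp h π ε Hs) :=
    plaques hB.closed hB.cont hinvF hB.semi hs he hB.shadow i1 i2
  have hP' : Plaques F.symm Λ (Wp h.symm π ε Hu) :=
    plaques hB.closed hB.cont hB.inv_symm hB.semi_symm hu heu (shadow_symm hB.shadow) i3 i4
  have hxs : Near h εs (π (F^[n₁] x)) a := by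
    rw [iter_pi' hinvF hB.semi hx, hxπ]
    exact Near_symm (Near_mono (Ps_near hcs) i1)
  have hxu : Near h.symm εu (π (F.symm^[n₂] x)) a := by
    rw [iter_pi' hB.inv_symm hB.semi_symm hx, hxπ]
    exact Near_symm (Near_mono (Ps_near hcu') i3)
  have hf1 := hs.fib (F^[n₁] x) (mem_iter hinvF hx n₁) a hxs
  have hf2 := hu.fib (F.symm^[n₂] x) (mem_iter hB.inv_symm hx n₂) a hxu
  have hKi : ∀ y, y ∈ {y | y ∈ Λ ∧ π y ∈ B'} ↔ F y ∈ {y | y ∈ Λ ∧ π y ∈ B'} := by
    intro y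
    simp only [mem_ofPred_eq]
    rw [← hB.inv]
    refine and_congr_right fun hy => ?_
    rw [hB.semi y hy, hinv]
  refine ⟨{y | y ∈ Λ ∧ π y ∈ B'}, Λ, Wp h π ε Hs, Wp h.symm π ε Hu, Hs (F^[n₁] x) a,
    Hu (F.symm^[n₂] x) a, ?_, fun y hy => (hKi y).1 hy, fun y hy => hy.1, ?_, hinvF,
    hP.mono fun y hy => hy.1, hP', ?_, ?_, ?_, ⟨n₁, ?_⟩, ⟨n₂, ?_⟩, ?_⟩
  · exact hB.cont.preimage_isClosed_of_isClosed hB.closed hc
  · rintro y ⟨hy, -⟩ y' ⟨b, hb, rfl⟩
    exact (hs.fib y hy b (Near_mono (Ps_near hb) i1)).1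
  · rintro ⟨-, h1⟩
    rw [hxπ] at h1
    exact hcB h1
  · exact ⟨hf1.1, by rw [hf1.2]; exact ha⟩
  · exact ⟨hf2.1, by rw [hf2.2]; exact ha⟩
  · refine ⟨π (F^[n₁] x), ?_, (hs.symm _ (mem_iter hinvF hx n₁) a hxs).symm⟩
    rw [hf1.2, iter_pi' hinvF hB.semi hx, hxπ]
    exact hcs
  · refine ⟨π (F.symm^[n₂] x), ?_, (hu.symm _ (mem_iter hB.inv_symm hx n₂) a hxu).symm⟩
    rw [hf2.2, iter_pi' hB.inv_symm hB.semi_symm hx, hxπ]
    exact hcu'
  · exact leads_of_trans hKi hT ⟨hf1.1, by rw [hf1.2]; exact ha⟩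
      ⟨hf2.1, by rw [hf2.2]; exact ha⟩

end

/-- metric closing -/
theorem MC_fib {X : Type u} [MetricSpace X] [CompactSpace X] {g : X ≃ₜ X} {x : X}
    (h : FibPt.{u, v} g x) (κ : ℝ) (k M : ℕ) (hκ : 0 < κ) : MC g x κ k M := by
  revert κ k M
  refine MC_of_near fun κ k M hκ => ?_
  obtain ⟨B, _, h, Λ, π, B', hB, hc, hne, huniv, hinv, hT, hx⟩ := h
  obtain ⟨x', hx', hh⟩ := hom_dense hB hc hne huniv hinv hT hx hκ
  exact ⟨x', hx', MC_hom hh κ k M hκ⟩

end Pool.Agent.KS6_4.HC
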