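import Pool.Agent.KS6_4.CL.Crit

/-!
# Closing at strong homoclinic points: the metric part
-/

set_option autoImplicit false

open Filter Set Metric Topology

universe u v

namespace Pool.Agent.KS6_4.HC

open Pool.Agent.KS6_4.CL

variable {X : Type u} [MetricSpace X]

/-- `y` can be reached from `x` in `K`: there are orbit segments of points of `K` of arbitrarily large
length which start arbitrarily close to `x` and end arbitrarily close to `y`. -/
def Leads (g : X → X) (K : Set X) (x y : X) : Prop :=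
  ∀ ε : ℝ, 0 < ε → ∀ M : ℕ, ∃ n : ℕ, M ≤ n ∧ ∃ u ∈ K, dist u x < ε ∧ dist (g^[n] u) y < ε

/-- Plaques `W x` of the points `x` of `D`: they are contracted uniformly by the iterates of `g`, and
depend lower semicontinuously on `x`. -/
structure Plaques (g : X → X) (D : Set X) (W : X → Set X) : Prop where
  contr : ∀ ε : ℝ, 0 < ε → ∃ n₀ : ℕ, ∀ n, n₀ ≤ n → ∀ x ∈ D, ∀ y ∈ W x,
    dist (g^[n] y) (g^[n] x) < ε
  lsc : ∀ x₀ ∈ D, ∀ y₀ ∈ W x₀, ∀ ε : ℝ, 0 < ε → ∃ δ : ℝ, 0 < δ ∧ ∀ x ∈ D, dist x x₀ < δ →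
    ∃ y ∈ W x, dist y y₀ < ε

/-- `z` is a strong homoclinic point of the closed invariant set `K` (and not in `K`): a forward
iterate of `z` is in the stable plaque of `k₁ ∈ K`, a backward iterate is in the unstable plaque of
`k₂ ∈ K`, and `k₂` can be reached from `k₁` in `K`. The unstable plaques are defined on a forward
invariant set `D` which contains `K` and its stable plaques. -/
def StrongHom (g : X ≃ₜ X) (z : X) : Prop :=
  ∃ (K D : Set X) (Ws Wu : X → Set X) (k₁ k₂ : X), IsClosed K ∧ (∀ x ∈ K, g x ∈ K) ∧ K ⊆ D ∧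
    (∀ x ∈ K, Ws x ⊆ D) ∧ (∀ x ∈ D, g x ∈ D) ∧ Plaques g K Ws ∧ Plaques g.symm D Wu ∧ z ∉ K ∧
    k₁ ∈ K ∧ k₂ ∈ K ∧ (∃ n : ℕ, g^[n] z ∈ Ws k₁) ∧ (∃ n : ℕ, g.symm^[n] z ∈ Wu k₂) ∧
    Leads g K k₁ k₂

theorem cont_upto {g : X → X} (hg : Continuous g) (y₀ : X) (S : ℕ) {ε : ℝ} (hε : 0 < ε) :
    ∃ δ : ℝ, 0 < δ ∧ ∀ y, dist y y₀ < δ → ∀ i ≤ S, dist (g^[i] y) (g^[i] y₀) < ε := by
  induction S with
  | zero =>
    refine ⟨ε, hε, fun y hy i hi => ?_⟩
    obtain rfl : i = 0 := by omega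
    exact hy
  | succ S ih =>
    obtain ⟨δ, hδ, h1⟩ := ih
    obtain ⟨δ', hδ', h2⟩ := Metric.continuousAt_iff.1 ((hg.iterate (S + 1)).continuousAt (x := y₀))
      ε hε
    refine ⟨min δ δ', lt_min hδ hδ', fun y hy i hi => ?_⟩
    rcases Nat.lt_or_ge i (S + 1) with h3 | h3
    · exact h1 y (hy.trans_le (min_le_left _ _)) i (by omega)
    · obtain rfl : i = S + 1 := by omega
      exact h2 (hy.trans_le (min_le_right _ _))

omit [MetricSpace X] in
theorem mem_iter {g : X → X} {D : Set X} (h : ∀ x ∈ D, g x ∈ D) {x : X} (hx : x ∈ D) (n : ℕ) :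
    g^[n] x ∈ D := by
  induction n with
  | zero => exact hx
  | succ n ih => rw [Function.iterate_succ_apply']; exact h _ ih

theorem symm_left (g : X ≃ₜ X) (n : ℕ) (x : X) : g.symm^[n] (g^[n] x) = x := by
  have h : Function.LeftInverse g.symm g := g.symm_apply_apply
  exact h.iterate n x

theorem symm_right (g : X ≃ₜ X) (n : ℕ) (x : X) : g^[n] (g.symm^[n] x) = x := by
  have h : Function.LeftInverse g g.symm := g.apply_symm_apply
  exact h.iterate n x

theorem symm_sub (g : X ≃ₜ X) {n m : ℕ} (h : m ≤ n) (x : X) :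
    g^[m] (g.symm^[n] x) = g.symm^[n - m] x := by
  obtain ⟨j, rfl⟩ := Nat.exists_eq_add_of_le h
  rw [Function.iterate_add_apply, symm_right, Nat.add_sub_cancel_left]

theorem symm_sub' (g : X ≃ₜ X) {n m : ℕ} (h : n ≤ m) (x : X) :
    g^[m] (g.symm^[n] x) = g^[m - n] x := by
  obtain ⟨j, rfl⟩ := Nat.exists_eq_add_of_le h
  rw [add_comm n j, Function.iterate_add_apply, symm_right, Nat.add_sub_cancel]

theorem symm_sub'' (g : X ≃ₜ X) {n m : ℕ} (h : n ≤ m) (x : X) :
    g.symm^[n] (g^[m] x) = g^[m - n] x := by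
  obtain ⟨j, rfl⟩ := Nat.exists_eq_add_of_le h
  rw [Function.iterate_add_apply, symm_left, Nat.add_sub_cancel_left]

set_option maxHeartbeats 1000000 in
/-- metric closing at strong homoclinic points -/
theorem MC_hom {g : X ≃ₜ X} {z : X} (h : StrongHom g z) (κ : ℝ) (k M : ℕ) (hκ : 0 < κ) :
    MC g z κ k M := by
  obtain ⟨K, D, Ws, Wu, k₁, k₂, hK, hKi, hKD, hWD, hDi, hs, hu, hz, hk₁, hk₂, ⟨n₁, hn₁⟩,
    ⟨n₂, hn₂⟩, hL⟩ := h
  -- the distance to `K`
  obtain ⟨a, ha, haK⟩ : ∃ a : ℝ, 0 < a ∧ ∀ x ∈ K, a ≤ dist x z := by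
    obtain ⟨a, ha, h1⟩ := Metric.isOpen_iff.1 hK.isOpen_compl z hz
    refine ⟨a, ha, fun x hx => ?_⟩
    by_contra hcon
    rw [not_le] at hcon
    exact h1 (mem_ball.2 hcon) hx
  -- `z` is not periodic
  have hnp : ∀ s : ℕ, 1 ≤ s → g^[s] z ≠ z := by
    intro s hs1 hper
    obtain ⟨n₀, hn₀⟩ := hs.contr a ha
    have h1 : ∀ j : ℕ, g^[s * j] z = z := by
      intro j
      induction j with
      | zero => rfl
      | succ j ih => rw [Nat.mul_succ, Function.iterate_add_apply, hper, ih]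
    have h2 : n₁ + n₀ ≤ s * (n₁ + n₀) := Nat.le_mul_of_pos_left _ hs1
    have h3 := hn₀ (s * (n₁ + n₀) - n₁) (by omega) k₁ hk₁ _ hn₁
    rw [← Function.iterate_add_apply, Nat.sub_add_cancel (by omega), h1, dist_comm] at h3
    have h4 := haK _ (mem_iter hKi hk₁ (s * (n₁ + n₀) - n₁))
    linarith
  have hnp' : ∀ s : ℕ, 1 ≤ s → g.symm^[s] z ≠ z := by
    intro s hs1 hper
    apply hnp s hs1
    conv_lhs => rw [← hper]
    exact symm_right g s z
  obtain ⟨ns, hns⟩ := hs.contr (a / 8) (by positivity)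
  obtain ⟨nu, hnu⟩ := hu.contr (a / 8) (by positivity)
  set S := n₁ + n₂ + ns + nu + 1 with hS
  obtain ⟨ρ₀, hρ₀, hρ1, hρ2⟩ : ∃ ρ₀ : ℝ, 0 < ρ₀ ∧ (∀ s : ℕ, 1 ≤ s → s ≤ S →
      4 * ρ₀ ≤ dist (g^[s] z) z) ∧ ∀ s : ℕ, 1 ≤ s → s ≤ S → 4 * ρ₀ ≤ dist (g.symm^[s] z) z := by
    have hne : (Finset.Icc 1 S).Nonempty := ⟨1, by simp [hS]⟩
    obtain ⟨i, hi, hi2⟩ := (Finset.Icc 1 S).exists_min_image (fun s => dist (g^[s] z) z) hne
    obtain ⟨j, hj, hj2⟩ := (Finset.Icc 1 S).exists_min_image (fun s => dist (g.symm^[s] z) z) hne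
    rw [Finset.mem_Icc] at hi hj
    have p1 : 0 < dist (g^[i] z) z := dist_pos.2 (hnp i hi.1)
    have p2 : 0 < dist (g.symm^[j] z) z := dist_pos.2 (hnp' j hj.1)
    refine ⟨min (dist (g^[i] z) z) (dist (g.symm^[j] z) z) / 4, by positivity,
      fun s h1 h2 => ?_, fun s h1 h2 => ?_⟩
    · have := hi2 s (Finset.mem_Icc.2 ⟨h1, h2⟩)
      have := min_le_left (dist (g^[i] z) z) (dist (g.symm^[j] z) z)
      linarith
    · have := hj2 s (Finset.mem_Icc.2 ⟨h1, h2⟩)
      have := min_le_right (dist (g^[i] z) z) (dist (g.symm^[j] z) z)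
      linarith
  -- the scale
  obtain ⟨ρ, hρ, r1, r2, r3⟩ : ∃ ρ : ℝ, 0 < ρ ∧ ρ < κ ∧ ρ ≤ ρ₀ ∧ ρ ≤ a / 8 := by
    refine ⟨min (κ / 2) (min ρ₀ (a / 8)), by positivity, ?_, ?_, ?_⟩
    · exact (min_le_left _ _).trans_lt (half_lt_self hκ)
    · exact (min_le_right _ _).trans (min_le_left _ _)
    · exact (min_le_right _ _).trans (min_le_right _ _)
  obtain ⟨η, hη, e1, e2, e3⟩ : ∃ η : ℝ, 0 < η ∧ η ≤ ρ ∧ 2 * η < κ * ρ ^ k ∧ η < κ := by
    have hp : 0 < κ * ρ ^ k := by positivity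
    refine ⟨min ρ (κ * ρ ^ k / 4), by positivity, min_le_left _ _, ?_, ?_⟩
    · have := min_le_right ρ (κ * ρ ^ k / 4)
      linarith
    · exact (min_le_left _ _).trans_lt r1
  set y₀ := g^[n₁] z with hy₀
  set y₁ := g.symm^[n₂] z with hy₁
  obtain ⟨d1, hd1, hc1⟩ := cont_upto g.continuous y₀ S hη
  obtain ⟨d2, hd2, hc2⟩ := cont_upto g.symm.continuous y₀ S hη
  obtain ⟨d3, hd3, hc3⟩ := cont_upto g.continuous y₁ S hη
  obtain ⟨d4, hd4, hc4⟩ := cont_upto g.symm.continuous y₁ S hη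
  obtain ⟨δ, hδ, b1, b2, b3, b4⟩ : ∃ δ : ℝ, 0 < δ ∧ δ ≤ d1 ∧ δ ≤ d2 ∧ δ ≤ d3 ∧ δ ≤ d4 :=
    ⟨min (min d1 d2) (min d3 d4), by positivity,
      (min_le_left _ _).trans (min_le_left _ _), (min_le_left _ _).trans (min_le_right _ _),
      (min_le_right _ _).trans (min_le_left _ _), (min_le_right _ _).trans (min_le_right _ _)⟩
  obtain ⟨ds, hds, hls⟩ := hs.lsc k₁ hk₁ y₀ hn₁ (δ / 2) (half_pos hδ)
  obtain ⟨du, hdu, hlu⟩ := hu.lsc k₂ (hKD hk₂) y₁ hn₂ δ hδ
  obtain ⟨na, hna⟩ := hs.contr (du / 2) (half_pos hdu)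
  obtain ⟨nb, hnb⟩ := hu.contr (δ / 2) (half_pos hδ)
  obtain ⟨l, hl, k₀, hk₀, hk₀1, hk₀2⟩ := hL (min ds (du / 2)) (by positivity) (M + na + nb + S)
  obtain ⟨q, hq, hq1⟩ := hls k₀ hk₀ (hk₀1.trans_le (min_le_left _ _))
  set x := g^[l] q with hx
  have hxD : x ∈ D := mem_iter hDi (hWD k₀ hk₀ hq) l
  have hx1 : dist x (g^[l] k₀) < du / 2 := hna l (by omega) k₀ hk₀ q hq
  have hx2 : dist x k₂ < du := by
    have h1 := hk₀2.trans_le (min_le_right _ _)
    have := dist_triangle x (g^[l] k₀) k₂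
    linarith
  obtain ⟨p, hp, hp1⟩ := hlu x hxD hx2
  set q' := g.symm^[l] p with hq'
  have hq2 : dist q' q < δ / 2 := by
    have h1 := hnb l (by omega) x hxD p hp
    rwa [hx, symm_left] at h1
  have hq3 : dist q' y₀ < δ := by
    have := dist_triangle q' q y₀
    linarith
  have hqp : ∀ i ≤ l, g^[i] q' = g.symm^[l - i] p := fun i hi => symm_sub g hi p
  set z' := g.symm^[n₁] q' with hz'
  have hzz : dist z' z < η := by
    have h1 := hc2 q' (hq3.trans_le b2) n₁ (by omega)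
    rwa [hy₀, symm_left] at h1
  have hlS : S ≤ l := by omega
  have hend : g^[n₁ + l + n₂] z' = g^[n₂] p := by
    rw [show n₁ + l + n₂ = n₂ + l + n₁ by ring, Function.iterate_add_apply, hz', symm_right,
      Function.iterate_add_apply, hq', symm_right]
  have hend2 : dist (g^[n₂] p) z < η := by
    have h1 := hc3 p (hp1.trans_le b3) n₂ (by omega)
    rwa [hy₁, symm_right] at h1
  refine ⟨z', ρ, n₁ + l + n₂, hzz.trans e3, hρ, r1, ⟨by omega, by omega⟩, ?_, ?_⟩
  · rw [hend]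
    have := dist_triangle_right (g^[n₂] p) z' z
    linarith
  · intro t ht1 ht2
    rcases Nat.lt_or_ge (n₁ + ns) t with h1 | h1
    · rcases Nat.lt_or_ge t (n₁ + l - nu) with h2 | h2
      · -- near `K`
        obtain ⟨i, rfl⟩ : ∃ i, t = i + n₁ := ⟨t - n₁, by omega⟩
        have hi1 : g^[i + n₁] z' = g.symm^[l - i] p := by
          rw [Function.iterate_add_apply, hz', symm_right]
          exact hqp i (by omega)
        have hi2 : dist (g.symm^[l - i] p) (g^[i] q) < a / 8 := by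
          have h3 := hnu (l - i) (by omega) x hxD p hp
          rwa [hx, symm_sub'' g (by omega), show l - (l - i) = i by omega] at h3
        have hi3 : dist (g^[i] q) (g^[i] k₀) < a / 8 := hns i (by omega) k₀ hk₀ q hq
        have hi4 := haK _ (mem_iter hKi hk₀ i)
        rw [hi1]
        have t1 := dist_triangle (g^[i] k₀) (g^[i] q) z
        have t2 := dist_triangle (g^[i] q) (g.symm^[l - i] p) z
        have t3 := dist_triangle (g.symm^[l - i] p) z' z
        rw [dist_comm (g^[i] k₀) (g^[i] q)] at t1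
        rw [dist_comm (g^[i] q) (g.symm^[l - i] p)] at t2
        linarith
      · -- near the backward orbit of `z`
        have h3 : ∃ s : ℕ, 1 ≤ s ∧ s ≤ S ∧ dist (g^[t] z') (g.symm^[s] z) < η := by
          rcases Nat.lt_or_ge t (n₁ + l) with h4 | h4
          · obtain ⟨i, rfl⟩ : ∃ i, t = i + n₁ := ⟨t - n₁, by omega⟩
            have hi1 : g^[i + n₁] z' = g.symm^[l - i] p := by
              rw [Function.iterate_add_apply, hz', symm_right]
              exact hqp i (by omega)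
            refine ⟨l - i + n₂, by omega, by omega, ?_⟩
            rw [hi1, Function.iterate_add_apply]
            exact hc4 p (hp1.trans_le b4) _ (by omega)
          · obtain ⟨j, rfl⟩ : ∃ j, t = j + (l + n₁) := ⟨t - (l + n₁), by omega⟩
            have hj1 : g^[j + (l + n₁)] z' = g^[j] p := by
              rw [Function.iterate_add_apply, Function.iterate_add_apply, hz', symm_right, hq',
                symm_right]
            refine ⟨n₂ - j, by omega, by omega, ?_⟩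
            rw [hj1, ← symm_sub g (show j ≤ n₂ by omega)]
            exact hc3 p (hp1.trans_le b3) _ (by omega)
        obtain ⟨s, hs1, hs2, hs3⟩ := h3
        have h5 := hρ2 s hs1 hs2
        have t1 := dist_triangle (g.symm^[s] z) (g^[t] z') z
        have t2 := dist_triangle (g^[t] z') z' z
        rw [dist_comm (g.symm^[s] z) (g^[t] z')] at t1
        linarith
    · -- near the forward orbit of `z`
      have h3 : dist (g^[t] z') (g^[t] z) < η := by
        rcases Nat.lt_or_ge t n₁ with h4 | h4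
        · have h5 := hc2 q' (hq3.trans_le b2) (n₁ - t) (by omega)
          rw [hy₀, symm_sub'' g (by omega), show n₁ - (n₁ - t) = t by omega] at h5
          rwa [hz', symm_sub g h4.le]
        · have h5 := hc1 q' (hq3.trans_le b1) (t - n₁) (by omega)
          rw [hy₀, ← Function.iterate_add_apply, Nat.sub_add_cancel h4] at h5
          rwa [hz', symm_sub' g h4]
      have h5 := hρ1 t ht1 (by omega)
      have t1 := dist_triangle (g^[t] z) (g^[t] z') z
      have t2 := dist_triangle (g^[t] z') z' z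
      rw [dist_comm (g^[t] z) (g^[t] z')] at t1
      linarith

end Pool.Agent.KS6_4.HC
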